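import Pool.Agent.EVF.StmtsB

/-! CBB: size of the coefficients of the members, with a real scale. -/

set_option autoImplicit false

namespace Pool.Agent.EVF.H72

open MvPolynomial
open Pool.Agent.EVF

theorem cbb : CbbStmt := by
  intro r s W M hM
  let K : Fin r → Fin r → (Fin 2 →₀ ℕ) → ℝ := fun i j e =>
    ∑ a ∈ (coeff e (M i j)).support, |((coeff a (coeff e (M i j)) : ℤ) : ℝ)|
  have hK0 : ∀ i j e, 0 ≤ K i j e := fun i j e => Finset.sum_nonneg fun a _ => abs_nonneg _
  refine ⟨1 + ∑ i, ∑ j, ∑ e ∈ (M i j).support, K i j e, ?_, ?_⟩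
  · have h1 : 0 ≤ ∑ i, ∑ j, ∑ e ∈ (M i j).support, K i j e :=
      Finset.sum_nonneg fun i _ => Finset.sum_nonneg fun j _ => Finset.sum_nonneg fun e _ =>
        hK0 i j e
    linarith
  · intro b hb t ht i j e
    have hKC : K i j e ≤ 1 + ∑ i, ∑ j, ∑ e ∈ (M i j).support, K i j e := by
      by_cases he : e ∈ (M i j).support
      · have h1 : K i j e ≤ ∑ e ∈ (M i j).support, K i j e :=
          Finset.single_le_sum (f := fun e => K i j e) (fun e _ => hK0 i j e) he
        have h2 : ∑ e ∈ (M i j).support, K i j e ≤ ∑ j, ∑ e ∈ (M i j).support, K i j e :=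
          Finset.single_le_sum (f := fun j => ∑ e ∈ (M i j).support, K i j e)
            (fun j _ => Finset.sum_nonneg fun e _ => hK0 i j e) (Finset.mem_univ j)
        have h3 : ∑ j, ∑ e ∈ (M i j).support, K i j e ≤
            ∑ i, ∑ j, ∑ e ∈ (M i j).support, K i j e :=
          Finset.single_le_sum (f := fun i => ∑ j, ∑ e ∈ (M i j).support, K i j e)
            (fun i _ => Finset.sum_nonneg fun j _ => Finset.sum_nonneg fun e _ => hK0 i j e)
            (Finset.mem_univ i)
        linarith
      · have h1 : K i j e = 0 := by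
          show ∑ a ∈ (coeff e (M i j)).support, _ = (0 : ℝ)
          rw [notMem_support_iff.1 he, support_zero, Finset.sum_empty]
        have h2 : 0 ≤ ∑ i, ∑ j, ∑ e ∈ (M i j).support, K i j e :=
          Finset.sum_nonneg fun i _ => Finset.sum_nonneg fun j _ => Finset.sum_nonneg fun e _ =>
            hK0 i j e
        rw [h1]; linarith
    have hb0 : (0 : ℝ) ≤ b := by linarith
    have hval : coeff e (spec M t i j) = eval t (coeff e (M i j)) := by
      show coeff e (MvPolynomial.map (eval t) (M i j)) = _
      rw [coeff_map]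
    have hmain : |((eval t (coeff e (M i j)) : ℤ) : ℝ)| * b ^ (s.α * e 0 + s.β * e 1) ≤
        K i j e * b ^ (s.m i + s.m j) := by
      rw [eval_eq', Int.cast_sum]
      calc |∑ a ∈ (coeff e (M i j)).support,
              (((coeff a (coeff e (M i j)) * ∏ l, t l ^ a l : ℤ)) : ℝ)| *
              b ^ (s.α * e 0 + s.β * e 1)
          ≤ (∑ a ∈ (coeff e (M i j)).support,
              |(((coeff a (coeff e (M i j)) * ∏ l, t l ^ a l : ℤ)) : ℝ)|) *
              b ^ (s.α * e 0 + s.β * e 1) := by
            gcongr
            exact Finset.abs_sum_le_sum_abs _ _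
        _ ≤ K i j e * b ^ (s.m i + s.m j) := by
            show _ ≤ (∑ a ∈ (coeff e (M i j)).support, _) * _
            rw [Finset.sum_mul, Finset.sum_mul]
            refine Finset.sum_le_sum fun a ha => ?_
            have he : e ∈ (M i j).support := by
              rw [mem_support_iff]
              intro h0
              rw [h0, support_zero] at ha
              exact Finset.notMem_empty _ ha
            have hw := hM.weight i j e he a ha
            push_cast
            rw [abs_mul, mul_assoc]
            refine mul_le_mul_of_nonneg_left ?_ (abs_nonneg _)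
            have h1 : |∏ l, (t l : ℝ) ^ a l| ≤ b ^ (∑ l, W * a l) := by
              rw [Finset.abs_prod, ← Finset.prod_pow_eq_pow_sum]
              refine Finset.prod_le_prod (fun l _ => abs_nonneg _) fun l _ => ?_
              rw [abs_pow, pow_mul]
              exact pow_le_pow_left₀ (abs_nonneg _) (ht l) _
            calc |∏ l, (t l : ℝ) ^ a l| * b ^ (s.α * e 0 + s.β * e 1)
                ≤ b ^ (∑ l, W * a l) * b ^ (s.α * e 0 + s.β * e 1) := by gcongr
              _ = b ^ ((∑ l, W * a l) + (s.α * e 0 + s.β * e 1)) := by rw [← pow_add]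
              _ ≤ b ^ (s.m i + s.m j) := pow_le_pow_right₀ hb (by rw [← add_assoc]; exact hw)
    rw [hval]
    exact hmain.trans (mul_le_mul_of_nonneg_right hKC (by positivity))

end Pool.Agent.EVF.H72
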