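import Pool.Agent.EVF.StmtsF

/-! LAG: a polynomial with a large coefficient is small at few integers. -/

set_option autoImplicit false

namespace Pool.Agent.EVF.H72

open Pool.Agent.EVF

/-- well separated points of a large set of integers -/
theorem sep (m : ℕ) (hm : 1 ≤ m) : ∀ (D : ℕ) (S : Finset ℤ), D * m < S.card →
    ∃ X : Finset ℤ, X ⊆ S ∧ X.card = D + 1 ∧ ∀ x ∈ X, ∀ y ∈ X, x ≠ y → (m : ℤ) ≤ |x - y| := by
  intro D
  induction D with
  | zero =>
    intro S hS
    obtain ⟨a, ha⟩ : S.Nonempty := Finset.card_pos.1 (by omega)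
    refine ⟨{a}, by simpa using ha, by simp, ?_⟩
    intro x hx y hy hxy
    rw [Finset.mem_singleton] at hx hy
    exact absurd (hx.trans hy.symm) hxy
  | succ D ih =>
    intro S hS
    have hne : S.Nonempty := Finset.card_pos.1 (by omega)
    obtain ⟨a, ha, hmin⟩ : ∃ a ∈ S, ∀ x ∈ S, a ≤ x :=
      ⟨S.min' hne, S.min'_mem hne, fun x hx => S.min'_le x hx⟩
    have h1 : S.card ≤ (S.filter (fun x => a + (m : ℤ) ≤ x)).card + m := by
      have h2 : S.filter (fun x => ¬ (a + (m : ℤ) ≤ x)) ⊆ Finset.Ico a (a + m) := by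
        intro x hx
        rw [Finset.mem_filter] at hx
        rw [Finset.mem_Ico]
        exact ⟨hmin x hx.1, not_le.1 hx.2⟩
      have h3 := Finset.card_le_card h2
      rw [Int.card_Ico] at h3
      have h4 := Finset.card_filter_add_card_filter_not (s := S) (fun x => a + (m : ℤ) ≤ x)
      omega
    have h5 : (D + 1) * m = D * m + m := by ring
    obtain ⟨X, hX, hc, hp⟩ := ih (S.filter (fun x => a + (m : ℤ) ≤ x)) (by omega)
    have hfar : ∀ x ∈ X, a + (m : ℤ) ≤ x := fun x hx => (Finset.mem_filter.1 (hX hx)).2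
    have haX : a ∉ X := fun h => by
      have h6 := hfar a h
      omega
    refine ⟨insert a X, ?_, by rw [Finset.card_insert_of_notMem haX, hc], ?_⟩
    · intro x hx
      rcases Finset.mem_insert.1 hx with h | h
      · rw [h]; exact ha
      · exact (Finset.mem_filter.1 (hX h)).1
    · intro x hx y hy hxy
      rcases Finset.mem_insert.1 hx with h | h <;> rcases Finset.mem_insert.1 hy with h' | h'
      · exact absurd (h.trans h'.symm) hxy
      · have h6 := hfar y h'
        rw [abs_sub_comm]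
        exact le_trans (by omega) (le_abs_self _)
      · have h6 := hfar x h
        exact le_trans (by omega) (le_abs_self _)
      · exact hp x h y h' hxy

/-- the coefficients of a product of linear factors -/
theorem coeff_bd (T A : ℝ) (hT : 0 ≤ T) (x : ℝ) (Y : Finset ℤ)
    (hY : ∀ y ∈ Y, |(y : ℝ)| ≤ T) (hA : ∀ y ∈ Y, |(x - (y : ℝ))⁻¹| ≤ A) :
    ∀ j : ℕ, |(∏ y ∈ Y, Lagrange.basisDivisor x (y : ℝ)).coeff j| * T ^ j ≤
      (2 * T * A) ^ Y.card := by
  classical
  induction Y using Finset.induction_on with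
  | empty =>
    intro j
    rw [Finset.prod_empty, Finset.card_empty, pow_zero, Polynomial.coeff_one]
    split_ifs with h
    · subst h; simp
    · simp
  | insert z Z hz ih =>
    intro j
    have hzT := hY z (Finset.mem_insert_self z Z)
    have hzA := hA z (Finset.mem_insert_self z Z)
    have hA0 : 0 ≤ A := le_trans (abs_nonneg _) hzA
    have ih' := ih (fun y hy => hY y (Finset.mem_insert_of_mem hy))
      (fun y hy => hA y (Finset.mem_insert_of_mem hy))
    rw [Finset.prod_insert hz, Finset.card_insert_of_notMem hz]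
    set q : Polynomial ℝ := ∏ y ∈ Z, Lagrange.basisDivisor x (y : ℝ) with hq
    have hK : 0 ≤ (2 * T * A) ^ Z.card := by positivity
    have e1 : Lagrange.basisDivisor x (z : ℝ) * q =
        Polynomial.C (x - (z : ℝ))⁻¹ * (Polynomial.X * q - Polynomial.C (z : ℝ) * q) := by
      rw [Lagrange.basisDivisor]; ring
    rw [e1, Polynomial.coeff_C_mul, Polynomial.coeff_sub, Polynomial.coeff_C_mul, abs_mul]
    have h2 : |(z : ℝ) * q.coeff j| * T ^ j ≤ T * (2 * T * A) ^ Z.card := by
      rw [abs_mul, mul_assoc]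
      exact mul_le_mul hzT (ih' j) (by positivity) hT
    have h3 : |(Polynomial.X * q).coeff j| * T ^ j ≤ T * (2 * T * A) ^ Z.card := by
      cases j with
      | zero =>
        rw [Polynomial.coeff_X_mul_zero, abs_zero, zero_mul]
        positivity
      | succ i =>
        rw [Polynomial.coeff_X_mul, pow_succ]
        calc |q.coeff i| * (T ^ i * T) = T * (|q.coeff i| * T ^ i) := by ring
          _ ≤ _ := mul_le_mul_of_nonneg_left (ih' i) hT
    calc |(x - (z : ℝ))⁻¹| * |(Polynomial.X * q).coeff j - (z : ℝ) * q.coeff j| * T ^ j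
        ≤ A * (|(Polynomial.X * q).coeff j| + |(z : ℝ) * q.coeff j|) * T ^ j := by
          have h4 := abs_sub ((Polynomial.X * q).coeff j) ((z : ℝ) * q.coeff j)
          gcongr
      _ = A * (|(Polynomial.X * q).coeff j| * T ^ j + |(z : ℝ) * q.coeff j| * T ^ j) := by ring
      _ ≤ A * (T * (2 * T * A) ^ Z.card + T * (2 * T * A) ^ Z.card) := by gcongr
      _ = (2 * T * A) ^ (Z.card + 1) := by rw [pow_succ]; ring

theorem lag : LagStmt := by
  intro D
  refine ⟨((D : ℝ) + 1) * 2 ^ D, ?_, ?_⟩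
  · have h1 : (1 : ℝ) ≤ 2 ^ D := one_le_pow₀ (by norm_num)
    have h2 : (0 : ℝ) ≤ D := Nat.cast_nonneg D
    nlinarith
  · intro g hg T j δ μ hT hδ hδ1 hμ hbig
    by_contra hcon
    rw [not_le] at hcon
    have hT0 : (1 : ℝ) ≤ (T : ℝ) := by exact_mod_cast hT
    have hfin : {c : ℤ | |c| ≤ (T : ℤ) ∧ |((g.eval c : ℤ) : ℝ)| ≤ μ}.Finite := by
      refine (Set.finite_Icc (-(T : ℤ)) T).subset ?_
      intro c hc
      exact abs_le.1 hc.1
    rw [Set.ncard_eq_toFinset_card _ hfin] at hcon
    have hpos : 0 < δ * (T : ℝ) := by positivity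
    obtain ⟨m, hm1, hmle, hmlt⟩ : ∃ m : ℕ, 1 ≤ m ∧ δ * T ≤ m ∧ (m : ℝ) < δ * T + 1 :=
      ⟨⌈δ * T⌉₊, Nat.one_le_iff_ne_zero.2 (Nat.ceil_pos.2 hpos).ne', Nat.le_ceil _,
        Nat.ceil_lt_add_one hpos.le⟩
    have hcard : D * m < hfin.toFinset.card := by
      have h1 : ((D * m : ℕ) : ℝ) < (hfin.toFinset.card : ℝ) := by
        refine lt_of_le_of_lt ?_ hcon
        push_cast
        have h2 : (0 : ℝ) ≤ D := Nat.cast_nonneg D
        nlinarith
      exact_mod_cast h1
    obtain ⟨X, hXS, hXc, hXp⟩ := sep m hm1 D hfin.toFinset hcard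
    have hXT : ∀ x ∈ X, |(x : ℝ)| ≤ T := by
      intro x hx
      have h1 := (hfin.mem_toFinset.1 (hXS hx)).1
      exact_mod_cast h1
    have hXm : ∀ x ∈ X, |((g.eval x : ℤ) : ℝ)| ≤ μ := fun x hx =>
      (hfin.mem_toFinset.1 (hXS hx)).2
    have hdist : ∀ x ∈ X, ∀ y ∈ X.erase x, |((x : ℝ) - (y : ℝ))⁻¹| ≤ (δ * T)⁻¹ := by
      intro x hx y hy
      rw [Finset.mem_erase] at hy
      have h1 := hXp x hx y hy.2 (Ne.symm hy.1)
      have h2 : (m : ℝ) ≤ |(x : ℝ) - (y : ℝ)| := by exact_mod_cast h1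
      rw [abs_inv]
      exact inv_anti₀ hpos (hmle.trans h2)
    set f : Polynomial ℝ := g.map (Int.castRingHom ℝ) with hf
    have hfeval : ∀ x : ℤ, f.eval (x : ℝ) = ((g.eval x : ℤ) : ℝ) := by
      intro x
      rw [hf, Polynomial.eval_intCast_map]
      simp
    have hdeg : f.degree < X.card := by
      rw [hXc]
      refine lt_of_le_of_lt (Polynomial.degree_map_le) ?_
      refine lt_of_le_of_lt Polynomial.degree_le_natDegree ?_
      exact_mod_cast Nat.lt_succ_of_le hg
    have hinj : Set.InjOn (fun x : ℤ => (x : ℝ)) X := fun x _ y _ h => Int.cast_injective h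
    have hint := Lagrange.eq_interpolate (f := f) hinj hdeg
    have hcoef : f.coeff j = ∑ x ∈ X, f.eval (x : ℝ) *
        (Lagrange.basis X (fun x : ℤ => (x : ℝ)) x).coeff j := by
      conv_lhs => rw [hint]
      rw [Lagrange.interpolate_apply, Polynomial.finsetSum_coeff]
      refine Finset.sum_congr rfl fun x _ => ?_
      rw [Polynomial.coeff_C_mul]
    have hb : ∀ x ∈ X, |(Lagrange.basis X (fun x : ℤ => (x : ℝ)) x).coeff j| * (T : ℝ) ^ j ≤
        (2 * T * (δ * T)⁻¹) ^ D := by
      intro x hx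
      have h1 := coeff_bd (T : ℝ) (δ * T)⁻¹ (by positivity) (x : ℝ) (X.erase x)
        (fun y hy => hXT y (Finset.mem_of_mem_erase hy)) (hdist x hx) j
      rw [Finset.card_erase_of_mem hx, hXc, Nat.add_sub_cancel] at h1
      exact h1
    have hTne : (T : ℝ) ≠ 0 := by positivity
    have hsimp : 2 * (T : ℝ) * (δ * T)⁻¹ = 2 / δ := by
      field_simp
    rw [hsimp] at hb
    have hfc : f.coeff j = ((g.coeff j : ℤ) : ℝ) := by
      rw [hf, Polynomial.coeff_map]; simp
    have hmain : |((g.coeff j : ℤ) : ℝ)| * (T : ℝ) ^ j ≤ ((D : ℝ) + 1) * (μ * (2 / δ) ^ D) := by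
      rw [← hfc, hcoef]
      calc |∑ x ∈ X, f.eval (x : ℝ) *
            (Lagrange.basis X (fun x : ℤ => (x : ℝ)) x).coeff j| * (T : ℝ) ^ j
          ≤ (∑ x ∈ X, |f.eval (x : ℝ) *
            (Lagrange.basis X (fun x : ℤ => (x : ℝ)) x).coeff j|) * (T : ℝ) ^ j := by
            gcongr
            exact Finset.abs_sum_le_sum_abs _ _
        _ = ∑ x ∈ X, |f.eval (x : ℝ)| *
            (|(Lagrange.basis X (fun x : ℤ => (x : ℝ)) x).coeff j| * (T : ℝ) ^ j) := by
            rw [Finset.sum_mul]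
            refine Finset.sum_congr rfl fun x _ => ?_
            rw [abs_mul, mul_assoc]
        _ ≤ ∑ _x ∈ X, μ * (2 / δ) ^ D := by
            refine Finset.sum_le_sum fun x hx => ?_
            refine mul_le_mul ?_ (hb x hx) (by positivity) hμ
            rw [hfeval]
            exact hXm x hx
        _ = ((D : ℝ) + 1) * (μ * (2 / δ) ^ D) := by
            rw [Finset.sum_const, hXc, nsmul_eq_mul]
            push_cast
            ring
    have hfinal : |((g.coeff j : ℤ) : ℝ)| * (T : ℝ) ^ j * δ ^ D ≤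
        ((D : ℝ) + 1) * 2 ^ D * μ := by
      calc |((g.coeff j : ℤ) : ℝ)| * (T : ℝ) ^ j * δ ^ D
          ≤ ((D : ℝ) + 1) * (μ * (2 / δ) ^ D) * δ ^ D := by gcongr
        _ = ((D : ℝ) + 1) * 2 ^ D * μ := by
            rw [div_pow]
            field_simp
    exact absurd hbig (not_lt.2 hfinal)

end Pool.Agent.EVF.H72
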