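import Pool.Agent.EVF.StmtsF

/-! SLC: values, coefficients, degree and derivative of a slice. -/

set_option autoImplicit false

namespace Pool.Agent.EVF.H72

open MvPolynomial
open Pool.Agent.EVF

theorem slice_add {k : ℕ} (l : Fin k) (t : Fin k → ℤ) (p q : MvPolynomial (Fin k) ℤ) :
    slice l t (p + q) = slice l t p + slice l t q := by
  unfold slice; rw [map_add]

theorem slice_mul {k : ℕ} (l : Fin k) (t : Fin k → ℤ) (p q : MvPolynomial (Fin k) ℤ) :
    slice l t (p * q) = slice l t p * slice l t q := by
  unfold slice; rw [map_mul]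

theorem slice_C {k : ℕ} (l : Fin k) (t : Fin k → ℤ) (a : ℤ) :
    slice l t (C a) = Polynomial.C a := by
  unfold slice; rw [aeval_C]; rfl

theorem slice_X {k : ℕ} (l : Fin k) (t : Fin k → ℤ) (i : Fin k) :
    slice l t (X i) = if i = l then Polynomial.X else Polynomial.C (t i) := by
  unfold slice; rw [aeval_X]

theorem slice_sum {k : ℕ} (l : Fin k) (t : Fin k → ℤ) {ι : Type} (s : Finset ι)
    (f : ι → MvPolynomial (Fin k) ℤ) :
    slice l t (∑ i ∈ s, f i) = ∑ i ∈ s, slice l t (f i) := by
  unfold slice; rw [map_sum]

theorem slice_monomial {k : ℕ} (l : Fin k) (t : Fin k → ℤ) (b : Fin k →₀ ℕ) (c : ℤ) :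
    slice l t (monomial b c) =
      Polynomial.C (eval t (monomial (b.erase l) c)) * Polynomial.X ^ (b l) := by
  classical
  unfold slice
  rw [aeval_monomial, eval_monomial, Finsupp.prod_fintype _ _ (fun i => pow_zero _),
    Finsupp.prod_fintype _ _ (fun i => pow_zero _),
    ← Finset.mul_prod_erase Finset.univ _ (Finset.mem_univ l),
    ← Finset.mul_prod_erase Finset.univ (fun i => t i ^ (b.erase l) i) (Finset.mem_univ l)]
  rw [if_pos rfl, Finsupp.erase_same, pow_zero, one_mul, map_mul, map_prod]
  have h1 : ∏ i ∈ Finset.univ.erase l,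
      (if i = l then (Polynomial.X : Polynomial ℤ) else Polynomial.C (t i)) ^ b i =
      ∏ i ∈ Finset.univ.erase l, Polynomial.C (t i ^ (b.erase l) i) := by
    refine Finset.prod_congr rfl fun i hi => ?_
    have hil : i ≠ l := (Finset.mem_erase.1 hi).1
    rw [if_neg hil, Finsupp.erase_ne hil, map_pow]
  rw [h1]
  have h2 : (algebraMap ℤ (Polynomial ℤ)) c = Polynomial.C c := rfl
  rw [h2]
  ring

theorem coeff_slice {k : ℕ} (l : Fin k) (t : Fin k → ℤ) (ψ : MvPolynomial (Fin k) ℤ) (j : ℕ) :
    (slice l t ψ).coeff j = eval t (coefl l j ψ) := by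
  classical
  have h1 : slice l t ψ = ∑ b ∈ ψ.support, slice l t (monomial b (coeff b ψ)) := by
    rw [← slice_sum, support_sum_monomial_coeff]
  rw [h1, Polynomial.finsetSum_coeff]
  unfold coefl
  rw [map_sum, Finset.sum_filter]
  refine Finset.sum_congr rfl fun b _ => ?_
  rw [slice_monomial, Polynomial.coeff_C_mul, Polynomial.coeff_X_pow]
  by_cases h : b l = j
  · rw [if_pos h, if_pos h.symm, mul_one]
  · rw [if_neg h, if_neg (fun h' => h h'.symm), mul_zero]

theorem slc : SlcStmt := by
  classical
  intro k l t ψ
  refine ⟨?_, ?_, ?_, ?_⟩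
  · intro c
    induction ψ using MvPolynomial.induction_on with
    | C a => rw [slice_C, Polynomial.eval_C, eval_C]
    | add p q hp hq => rw [slice_add, Polynomial.eval_add, hp, hq, map_add]
    | mul_X p i hp =>
      rw [slice_mul, Polynomial.eval_mul, hp, map_mul, eval_X, slice_X]
      congr 1
      by_cases h : i = l
      · subst h
        rw [if_pos rfl, Polynomial.eval_X, Function.update_self]
      · rw [if_neg h, Polynomial.eval_C, Function.update_of_ne h]
  · exact coeff_slice l t ψ
  · rw [Polynomial.natDegree_le_iff_coeff_eq_zero]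
    intro N hN
    rw [coeff_slice]
    unfold coefl
    rw [Finset.filter_eq_empty_iff.2, Finset.sum_empty, map_zero]
    intro b hb h
    have h1 := monomial_le_degreeOf l hb
    omega
  · induction ψ using MvPolynomial.induction_on with
    | C a => rw [pderiv_C, slice_C, Polynomial.derivative_C]; unfold slice; rw [map_zero]
    | add p q hp hq => rw [map_add, slice_add, slice_add, hp, hq, Polynomial.derivative_add]
    | mul_X p i hp =>
      rw [Derivation.leibniz, smul_eq_mul, smul_eq_mul, slice_add, slice_mul, slice_mul, slice_mul,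
        hp, Polynomial.derivative_mul, pderiv_X, slice_X]
      by_cases h : i = l
      · subst h
        rw [if_pos rfl, Pi.single_eq_same, Polynomial.derivative_X]
        have h1 : slice i t 1 = 1 := by unfold slice; rw [map_one]
        rw [h1]
        ring
      · rw [if_neg h, Pi.single_eq_of_ne h, Polynomial.derivative_C]
        have h1 : slice l t 0 = 0 := by unfold slice; rw [map_zero]
        rw [h1]
        ring

end Pool.Agent.EVF.H72
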