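import Pool.Agent.EVF.StmtsB

/-! TWZ: two zeros of a product of binary forms. -/

set_option autoImplicit false

namespace Pool.Agent.EVF.H72

open MvPolynomial
open Pool.Agent.EVF

theorem hom_exp {φ : MvPolynomial (Fin 2) ℤ} {d : ℕ} (h : φ.IsHomogeneous d)
    {e : Fin 2 →₀ ℕ} (he : e ∈ φ.support) : e 0 + e 1 = d := by
  have h1 := h (mem_support_iff.1 he)
  rw [← h1, Finsupp.weight_apply, Finsupp.sum_fintype _ _ (fun i => by simp)]
  simp [Fin.sum_univ_two]

theorem hom_smul {φ : MvPolynomial (Fin 2) ℤ} {d : ℕ} (h : φ.IsHomogeneous d) (c : ℂ)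
    (v : Fin 2 → ℂ) : aeval (fun i => c * v i) φ = c ^ d * aeval v φ := by
  rw [aeval_def, aeval_def, eval₂_eq', eval₂_eq', Finset.mul_sum]
  refine Finset.sum_congr rfl fun e he => ?_
  have h1 := hom_exp h he
  rw [Fin.prod_univ_two, Fin.prod_univ_two, ← h1]
  ring

theorem hom_inhom {φ : MvPolynomial (Fin 2) ℤ} {d : ℕ} (h : φ.IsHomogeneous d) (x y : ℂ)
    (hy : y ≠ 0) : aeval ![x, y] φ = y ^ d * aeval ![x / y, 1] φ := by
  rw [← hom_smul h]
  congr 2
  funext i
  fin_cases i
  · simp [mul_div_cancel₀ x hy]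
  · simp

/-- degree bound for divisors of products of powers -/
theorem not_dvd_small {φ ψ : MvPolynomial (Fin 2) ℤ} {d : ℕ} (h : φ.IsHomogeneous d)
    (h0 : φ ≠ 0) (hψ : ψ ≠ 0) (hd : ψ.totalDegree < d) : ¬ φ ∣ ψ := by
  intro hdvd
  have h1 := totalDegree_le_of_dvd_of_isDomain hdvd hψ
  rw [h.totalDegree h0] at h1
  omega

theorem two_roots {φ : MvPolynomial (Fin 2) ℤ} {d : ℕ} (h : φ.IsHomogeneous d)
    (hirr : Irreducible φ) (hd : 2 ≤ d) :
    ∃ θ θ' : ℂ, θ ≠ θ' ∧ aeval ![θ, 1] φ = 0 ∧ aeval ![θ', 1] φ = 0 := by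
  by_contra hcon
  push Not at hcon
  have hp : Prime φ := hirr.prime
  let fZ : Polynomial ℤ := aeval ![Polynomial.X, 1] φ
  let f : Polynomial ℂ := fZ.map (Int.castRingHom ℂ)
  have hfe : ∀ x : ℂ, f.eval x = aeval ![x, 1] φ := by
    intro x
    have h1 : f.eval x = Polynomial.aeval x fZ := by
      rw [Polynomial.aeval_def, Polynomial.eval₂_eq_eval_map]
      rfl
    rw [h1]
    show Polynomial.aeval x (aeval ![Polynomial.X, 1] φ) = _
    rw [← AlgHom.comp_apply, comp_aeval]
    congr 2
    funext i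
    fin_cases i
    · simp
    · simp
  have hf0 : f ≠ 0 := by
    intro hf
    apply hp.ne_zero
    have h1 : (X 1 : MvPolynomial (Fin 2) ℤ) * φ = 0 := by
      apply MvPolynomial.funext
      intro t
      rw [map_mul, map_zero, eval_X]
      by_cases ht : t 1 = 0
      · rw [ht, zero_mul]
      · have h2 : ((eval t φ : ℤ) : ℂ) = 0 := by
          have h3 : ((eval t φ : ℤ) : ℂ) = aeval ![(t 0 : ℂ), (t 1 : ℂ)] φ := by
            have h4 := aeval_algebraMap_apply ℂ t φ
            have h5 : (algebraMap ℤ ℂ ∘ t) = ![(t 0 : ℂ), (t 1 : ℂ)] := by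
              funext i
              fin_cases i <;> simp
            rw [h5] at h4
            rw [h4]
            simp [aeval_eq_eval]
          rw [h3, hom_inhom h _ _ (by exact_mod_cast ht), ← hfe, hf, Polynomial.eval_zero,
            mul_zero]
        have h3 : eval t φ = 0 := by exact_mod_cast h2
        rw [h3, mul_zero]
    rcases mul_eq_zero.1 h1 with h2 | h2
    · exact absurd h2 (X_ne_zero 1)
    · exact h2
  -- all roots are equal
  obtain ⟨θ, hθ⟩ : ∃ θ : ℂ, ∀ x ∈ f.roots, x = θ := by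
    by_cases hr : f.roots = 0
    · exact ⟨0, fun x hx => by rw [hr] at hx; exact absurd hx (Multiset.notMem_zero x)⟩
    · obtain ⟨θ, hθ⟩ := Multiset.exists_mem_of_ne_zero hr
      refine ⟨θ, fun x hx => ?_⟩
      by_contra hne
      have h1 := (Polynomial.mem_roots hf0).1 hx
      have h2 := (Polynomial.mem_roots hf0).1 hθ
      rw [Polynomial.IsRoot.def, hfe] at h1 h2
      exact hcon x θ hne h1 h2
  have hrep : f.roots = Multiset.replicate f.roots.card θ :=
    Multiset.eq_replicate.2 ⟨rfl, hθ⟩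
  have hcard : f.roots.card = f.natDegree :=
    (IsAlgClosed.splits f).natDegree_eq_card_roots.symm
  have hfact : f = Polynomial.C f.leadingCoeff *
      (Polynomial.X + Polynomial.C (-θ)) ^ f.natDegree := by
    conv_lhs => rw [(IsAlgClosed.splits f).eq_prod_roots]
    rw [hrep, Multiset.map_replicate, Multiset.prod_replicate, hcard, map_neg, ← sub_eq_add_neg]
  have hinj : Function.Injective (Int.castRingHom ℂ) := Int.cast_injective
  have hlead : f.leadingCoeff = ((fZ.leadingCoeff : ℤ) : ℂ) := by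
    show (fZ.map (Int.castRingHom ℂ)).leadingCoeff = _
    rw [Polynomial.leadingCoeff_map_of_injective hinj]
    rfl
  set c : ℤ := fZ.leadingCoeff with hc
  have hc0 : c ≠ 0 := by
    intro h0
    rw [h0, Int.cast_zero] at hlead
    exact hf0 (Polynomial.leadingCoeff_eq_zero.1 hlead)
  set n : ℕ := f.natDegree with hn
  -- `θ` is rational (if `n = 0` take `0`)
  obtain ⟨Q, P, hQ, hfact'⟩ : ∃ Q P : ℤ, Q ≠ 0 ∧ ∀ x : ℂ,
      (Q : ℂ) ^ n * f.eval x = c * ((Q : ℂ) * x - P) ^ n := by
    have hev : ∀ x : ℂ, f.eval x = c * (x - θ) ^ n := by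
      intro x
      conv_lhs => rw [hfact]
      rw [Polynomial.eval_mul, Polynomial.eval_pow, Polynomial.eval_add, Polynomial.eval_X,
        Polynomial.eval_C, Polynomial.eval_C, hlead, sub_eq_add_neg]
    by_cases hn0 : n = 0
    · refine ⟨1, 0, one_ne_zero, fun x => ?_⟩
      rw [hev, hn0]
      simp
    · have hco : (fZ.coeff (n - 1) : ℂ) = c * (-θ * n) := by
        have h1 : f.coeff (n - 1) = (fZ.coeff (n - 1) : ℂ) := by
          show (fZ.map (Int.castRingHom ℂ)).coeff (n - 1) = _
          rw [Polynomial.coeff_map]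
          rfl
        rw [← h1]
        conv_lhs => rw [hfact]
        rw [Polynomial.coeff_C_mul, hlead, Polynomial.coeff_X_add_C_pow]
        have h2 : n - (n - 1) = 1 := by omega
        have h3 : n.choose (n - 1) = n := by
          have h4 := Nat.choose_symm (n := n) (k := 1) (by omega)
          rw [h4, Nat.choose_one_right]
        rw [h2, h3, pow_one]
      refine ⟨c * n, -fZ.coeff (n - 1), mul_ne_zero hc0 (by exact_mod_cast hn0), fun x => ?_⟩
      rw [hev]
      push_cast
      rw [hco]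
      have e1 : (c : ℂ) * n * x - -(c * (-θ * n)) = (c * n) * (x - θ) := by ring
      rw [e1, mul_pow ((c : ℂ) * n) (x - θ) n]
      ring
  have hnd : n ≤ d := by
    rw [hn]
    refine le_trans (Polynomial.natDegree_map_le) ?_
    show (aeval ![Polynomial.X, 1] φ : Polynomial ℤ).natDegree ≤ d
    rw [aeval_def, eval₂_eq']
    refine Polynomial.natDegree_sum_le_of_forall_le _ _ fun e he => ?_
    have h1 := hom_exp h he
    rw [Fin.prod_univ_two]
    have h2 : (algebraMap ℤ (Polynomial ℤ)) (coeff e φ) *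
        ((![Polynomial.X, 1] : Fin 2 → Polynomial ℤ) 0 ^ e 0 *
          (![Polynomial.X, 1] : Fin 2 → Polynomial ℤ) 1 ^ e 1) =
        Polynomial.C (coeff e φ) * Polynomial.X ^ e 0 := by
      simp
    rw [h2]
    exact (Polynomial.natDegree_C_mul_X_pow_le _ _).trans (by omega)
  have hid : (C (Q ^ n) : MvPolynomial (Fin 2) ℤ) * φ =
      C c * X 1 ^ (d - n) * (C Q * X 0 - C P * X 1) ^ n := by
    have h1 : (X 1 : MvPolynomial (Fin 2) ℤ) * (C (Q ^ n) * φ -
        C c * X 1 ^ (d - n) * (C Q * X 0 - C P * X 1) ^ n) = 0 := by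
      apply MvPolynomial.funext
      intro t
      rw [map_mul, map_zero, eval_X]
      by_cases ht : t 1 = 0
      · rw [ht, zero_mul]
      · have ht' : (t 1 : ℂ) ≠ 0 := by exact_mod_cast ht
        have h3 : ((eval t φ : ℤ) : ℂ) = aeval ![(t 0 : ℂ), (t 1 : ℂ)] φ := by
          have h4 := aeval_algebraMap_apply ℂ t φ
          have h5 : (algebraMap ℤ ℂ ∘ t) = ![(t 0 : ℂ), (t 1 : ℂ)] := by
            funext i
            fin_cases i <;> simp
          rw [h5] at h4
          rw [h4]
          simp [aeval_eq_eval]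
        have h6 : (((eval t (C (Q ^ n) * φ -
            C c * X 1 ^ (d - n) * (C Q * X 0 - C P * X 1) ^ n) : ℤ)) : ℂ) = 0 := by
          simp only [map_sub, map_mul, map_pow, eval_C, eval_X]
          push_cast
          rw [h3, hom_inhom h _ _ ht', ← hfe]
          have h7 := hfact' ((t 0 : ℂ) / t 1)
          have h8 : (Q : ℂ) * ((t 0 : ℂ) / t 1) - P = ((Q : ℂ) * t 0 - P * t 1) / t 1 := by
            field_simp
          rw [h8, div_pow] at h7
          have h9 : (t 1 : ℂ) ^ d = (t 1 : ℂ) ^ (d - n) * (t 1 : ℂ) ^ n := by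
            rw [← pow_add, Nat.sub_add_cancel hnd]
          calc (Q : ℂ) ^ n * ((t 1 : ℂ) ^ d * f.eval ((t 0 : ℂ) / t 1)) -
                c * (t 1 : ℂ) ^ (d - n) * (Q * t 0 - P * t 1) ^ n
              = (t 1 : ℂ) ^ d * ((Q : ℂ) ^ n * f.eval ((t 0 : ℂ) / t 1)) -
                c * (t 1 : ℂ) ^ (d - n) * (Q * t 0 - P * t 1) ^ n := by ring
            _ = 0 := by
              rw [h7, h9]
              have h10 : (t 1 : ℂ) ^ n ≠ 0 := pow_ne_zero _ ht'
              field_simp
              ring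
        have h7 : eval t (C (Q ^ n) * φ -
            C c * X 1 ^ (d - n) * (C Q * X 0 - C P * X 1) ^ n) = 0 := by exact_mod_cast h6
        rw [h7, mul_zero]
    rcases mul_eq_zero.1 h1 with h2 | h2
    · exact absurd h2 (X_ne_zero 1)
    · exact sub_eq_zero.1 h2
  have hdvd : φ ∣ C c * X 1 ^ (d - n) * (C Q * X 0 - C P * X 1) ^ n := by
    rw [← hid]; exact Dvd.intro_left _ rfl
  rcases hp.dvd_or_dvd hdvd with h1 | h1
  · rcases hp.dvd_or_dvd h1 with h2 | h2
    · refine not_dvd_small h hp.ne_zero ?_ ?_ h2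
      · exact (C_ne_zero).2 hc0
      · rw [totalDegree_C]; omega
    · have h3 := hp.dvd_of_dvd_pow h2
      refine not_dvd_small h hp.ne_zero (X_ne_zero 1) ?_ h3
      rw [totalDegree_X]; omega
  · have h3 := hp.dvd_of_dvd_pow h1
    refine not_dvd_small h hp.ne_zero ?_ ?_ h3
    · intro h0
      have h4 := congrArg (fun p => eval ![1, 0] p) h0
      simp at h4
      exact hQ h4
    · refine lt_of_le_of_lt (totalDegree_sub _ _) ?_
      refine max_lt ?_ ?_
      · refine lt_of_le_of_lt (totalDegree_mul _ _) ?_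
        rw [totalDegree_C, totalDegree_X]; omega
      · refine lt_of_le_of_lt (totalDegree_mul _ _) ?_
        rw [totalDegree_C, totalDegree_X]; omega

theorem lin_form {φ : MvPolynomial (Fin 2) ℤ} (h : φ.IsHomogeneous 1) :
    ∃ a b : ℤ, φ = C a * X 0 + C b * X 1 := by
  have h1 : φ ∈ homogeneousSubmodule (Fin 2) ℤ 1 := (mem_homogeneousSubmodule 1 φ).2 h
  rw [homogeneousSubmodule_one_eq_span_X, Submodule.mem_span_range_iff_exists_fun] at h1
  obtain ⟨c, hc⟩ := h1
  refine ⟨c 0, c 1, ?_⟩
  rw [← hc, Fin.sum_univ_two, smul_eq_C_mul, smul_eq_C_mul]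

theorem twz : TwzStmt := by
  classical
  intro m φ d hφ hass hsum
  have hprod : ∀ (j : Fin m) (t : Fin 2 → ℂ), aeval t (φ j) = 0 → aeval t (∏ j, φ j) = 0 := by
    intro j t ht
    rw [map_prod]
    exact Finset.prod_eq_zero (Finset.mem_univ j) ht
  by_cases hbig : ∃ j, 2 ≤ d j
  · obtain ⟨j, hj⟩ := hbig
    obtain ⟨θ, θ', hne, h1, h2⟩ := two_roots (hφ j).1 (hφ j).2.1 hj
    refine ⟨![θ, 1], ![θ', 1], hprod j _ h1, hprod j _ h2, ?_⟩
    simpa using hne
  · push Not at hbig
    have hd1 : ∀ j, d j = 1 := fun j => le_antisymm (by have := hbig j; omega) (hφ j).2.2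
    have hm : 2 ≤ m := by
      have h1 : ∑ j, d j = m := by
        rw [Finset.sum_congr rfl (fun j _ => hd1 j)]
        simp
      omega
    let i : Fin m := ⟨0, by omega⟩
    let j : Fin m := ⟨1, by omega⟩
    have hij : i ≠ j := by
      intro h
      have := congrArg Fin.val h
      simp [i, j] at this
    obtain ⟨a, b, hab⟩ := lin_form (by have := (hφ i).1; rwa [hd1 i] at this)
    obtain ⟨a', b', hab'⟩ := lin_form (by have := (hφ j).1; rwa [hd1 j] at this)
    have hpi : Prime (φ i) := (hφ i).2.1.prime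
    have hhi : (φ i).IsHomogeneous 1 := by have := (hφ i).1; rwa [hd1 i] at this
    have hdvd : ∀ c c' : ℤ, c ≠ 0 → C c * φ j = C c' * φ i → False := by
      intro c c' hc he
      have h1 : φ i ∣ C c * φ j := by rw [he]; exact Dvd.intro_left _ rfl
      rcases hpi.dvd_or_dvd h1 with h2 | h2
      · refine not_dvd_small hhi hpi.ne_zero ((C_ne_zero).2 hc) ?_ h2
        rw [totalDegree_C]; omega
      · exact hass i j hij ((hφ i).2.1.associated_of_dvd (hφ j).2.1 h2)
    refine ⟨![-(b : ℂ), a], ![-(b' : ℂ), a'], hprod i _ ?_, hprod j _ ?_, ?_⟩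
    · rw [hab]
      simp
      ring
    · rw [hab']
      simp
      ring
    · intro h
      have h1 : b * a' = a * b' := by
        have h2 : -(b : ℂ) * a' = a * -(b' : ℂ) := by simpa using h
        have h3 : ((b * a' : ℤ) : ℂ) = ((a * b' : ℤ) : ℂ) := by
          push_cast
          linear_combination -h2
        exact_mod_cast h3
      by_cases ha : a = 0
      · by_cases hb : b = 0
        · apply hpi.ne_zero
          rw [hab, ha, hb]
          simp
        · apply hdvd b b' hb
          rw [hab, hab']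
          have h2 : (C b * C a' : MvPolynomial (Fin 2) ℤ) = C a * C b' := by
            rw [← C_mul, ← C_mul, h1]
          linear_combination X 0 * h2
      · apply hdvd a a' ha
        rw [hab, hab']
        have h2 : (C b * C a' : MvPolynomial (Fin 2) ℤ) = C a * C b' := by
          rw [← C_mul, ← C_mul, h1]
        linear_combination (-X 1) * h2

end Pool.Agent.EVF.H72
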